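import Mathlib
import Pool.Agent.Helper185.PolCompact

/-!
# The polarized relation P on all sigma-compact sets of reals

Every sigma-compact set of reals satisfies the polarized relation `P`, and it satisfies
`S₁(Ω, Ω)` only if it is countable. For an uncountable sigma-compact set `X` there are a compact
subset homeomorphic to the Cantor space and a continuous map from it onto the unit interval, along
which the `ω`-covers of the unit interval are lifted to `X`.
-/

set_option autoImplicit false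

namespace Pool.Agent.Results.MP_7b7e09_gt.SigmaCompactSets

open Set Topology Pool.Agent.Helper185.Sel

/-- Let `f : K → X` be a continuous injection of a compact space, `g : K → Y` a continuous
surjection. If `X` satisfies `S₁(Ω, Ω)`, then so does `Y`. -/
theorem s1_transfer {X Y K : Type*} [TopologicalSpace X] [T2Space X] [TopologicalSpace Y]
    [TopologicalSpace K] [CompactSpace K] {f : K → X} (hf : Continuous f)
    (hfi : Function.Injective f) {g : K → Y} (hg : Continuous g) (hgs : Function.Surjective g)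
    (h : S1 (OmegaOf (OpenFam X)) (OmegaOf (OpenFam X))) :
    S1 (OmegaOf (OpenFam Y)) (OmegaOf (OpenFam Y)) := by
  classical
  intro U hU
  let L : Set Y → Set X := fun u => {x | ∀ c, f c = x → g c ∈ u}
  have hLopen : ∀ u, IsOpen u → IsOpen (L u) := by
    intro u hu
    have h1 : (L u)ᶜ = f '' (g ⁻¹' uᶜ) := by
      ext x
      simp only [L, mem_compl_iff, mem_ofPred_eq, not_forall, mem_image, mem_preimage, exists_prop]
      constructor
      · rintro ⟨c, hc, hcu⟩; exact ⟨c, hcu, hc⟩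
      · rintro ⟨c, hcu, hc⟩; exact ⟨c, hc, hcu⟩
    rw [← isClosed_compl_iff, h1]
    exact ((hu.isClosed_compl.preimage hg).isCompact.image hf).isClosed
  have hLuniv : ∀ u, u ≠ univ → L u ≠ univ := by
    intro u hu hL
    apply hu
    rw [eq_univ_iff_forall]
    intro y
    obtain ⟨c, rfl⟩ := hgs y
    have h1 : f c ∈ L u := by rw [hL]; exact mem_univ _
    exact h1 c rfl
  have hLω : ∀ n, ∀ F : Set X, F.Finite → ∃ u ∈ U n, F ⊆ L u := by
    intro n F hF
    have h1 : (g '' (f ⁻¹' F)).Finite := (hF.preimage hfi.injOn).image _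
    obtain ⟨u, hu, hFu⟩ := (hU n).2.2 _ h1
    refine ⟨u, hu, fun x hx c hc => hFu ⟨c, ?_, rfl⟩⟩
    rw [mem_preimage, hc]; exact hx
  have hW : ∀ n, L '' (U n) ∈ OmegaOf (OpenFam X) := by
    intro n
    have hω : ∀ F : Set X, F.Finite → ∃ u ∈ L '' (U n), F ⊆ u := by
      intro F hF
      obtain ⟨u, hu, hFu⟩ := hLω n F hF
      exact ⟨L u, ⟨u, hu, rfl⟩, hFu⟩
    refine ⟨?_, ⟨?_, ?_⟩, hω⟩
    · rintro _ ⟨u, hu, rfl⟩
      exact hLopen u ((hU n).1 u hu)
    · rw [eq_univ_iff_forall]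
      intro x
      obtain ⟨u, hu, hx⟩ := hω {x} (finite_singleton x)
      exact ⟨u, hu, hx rfl⟩
    · rintro ⟨u, hu, hLu⟩
      exact hLuniv u (fun h1 => (hU n).2.1.2 (h1 ▸ hu)) hLu
  obtain ⟨V, hV, hVΩ⟩ := h (fun n => L '' (U n)) hW
  choose u hu huV using hV
  have hω : ∀ G : Set Y, G.Finite → ∃ w ∈ range u, G ⊆ w := by
    intro G hG
    choose s hs using hgs
    obtain ⟨w, hw, hGw⟩ := hVΩ.2.2 (f '' (s '' G)) ((hG.image s).image f)
    obtain ⟨n, rfl⟩ := hw
    refine ⟨u n, ⟨n, rfl⟩, fun y hy => ?_⟩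
    have h1 : f (s y) ∈ V n := hGw ⟨s y, ⟨y, hy, rfl⟩, rfl⟩
    rw [← huV n] at h1
    have h2 := h1 (s y) rfl
    rwa [hs] at h2
  refine ⟨u, hu, ?_, ⟨?_, ?_⟩, hω⟩
  · rintro _ ⟨n, rfl⟩
    exact (hU n).1 _ (hu n)
  · rw [eq_univ_iff_forall]
    intro y
    obtain ⟨w, hw, hy⟩ := hω {y} (finite_singleton y)
    exact ⟨w, hw, hy rfl⟩
  · rintro ⟨n, hn⟩
    exact (hU n).2.1.2 (hn ▸ hu n)

/-- Countable spaces satisfy `S₁(Ω, Ω)`. -/
theorem s1_of_countable {X : Type*} [TopologicalSpace X] [Countable X] :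
    S1 (OmegaOf (OpenFam X)) (OmegaOf (OpenFam X)) := by
  classical
  intro U hU
  obtain ⟨e, he⟩ := exists_surjective_nat (Finset X)
  choose V hV hVe using fun n => (hU n).2.2 (e n : Set X) (e n).finite_toSet
  have hω : ∀ F : Set X, F.Finite → ∃ u ∈ range V, F ⊆ u := by
    intro F hF
    obtain ⟨n, hn⟩ := he hF.toFinset
    refine ⟨V n, ⟨n, rfl⟩, ?_⟩
    have h1 := hVe n
    rw [hn, Set.Finite.coe_toFinset] at h1
    exact h1
  refine ⟨V, hV, ?_, ⟨?_, ?_⟩, hω⟩
  · rintro _ ⟨n, rfl⟩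
    exact (hU n).1 _ (hV n)
  · rw [eq_univ_iff_forall]
    intro y
    obtain ⟨w, hw, hy⟩ := hω {y} (finite_singleton y)
    exact ⟨w, hw, hy rfl⟩
  · rintro ⟨n, hn⟩
    exact (hU n).2.1.2 (hn ▸ hV n)

/-- A set of reals which contains an uncountable compact set does not satisfy `S₁(Ω, Ω)`. -/
theorem not_s1 {X K : Set ℝ} (hK : IsCompact K) (hKX : K ⊆ X) (hKc : ¬ K.Countable) :
    ¬ S1 (OmegaOf (OpenFam X)) (OmegaOf (OpenFam X)) := by
  obtain ⟨f, hfr, hf, hfi⟩ := hK.isClosed.exists_nat_bool_injection_of_not_countable hKc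
  obtain ⟨g, hg, hgs⟩ := exists_nat_bool_continuous_surjective_of_compact (Icc (0 : ℝ) 1)
  intro h
  refine Pool.Agent.Helper185.Pol.not_s1_Icc
    (s1_transfer (f := fun c => (⟨f c, hKX (hfr ⟨c, rfl⟩)⟩ : X)) (hf.subtype_mk _) ?_ hg hgs h)
  intro c c' hcc
  exact hfi (congrArg Subtype.val hcc)

/-- **Every sigma-compact set of reals satisfies the polarized relation `P`** (for every number
`k` of colours), **and it satisfies `S₁(Ω, Ω)` if and only if it is countable.** So every
uncountable sigma-compact set of reals satisfies `P` but not `S₁(Ω, Ω)`. Moreover no set of reals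
with an uncountable compact subset satisfies `S₁(Ω, Ω)`. -/
theorem result :
    (∀ X : Set ℝ, IsSigmaCompact X →
      (∀ k : ℕ, Polar (OmegaOf (OpenFam X)) k) ∧
      (S1 (OmegaOf (OpenFam X)) (OmegaOf (OpenFam X)) ↔ X.Countable)) ∧
    ∀ X K : Set ℝ, IsCompact K → K ⊆ X → ¬ K.Countable →
      ¬ S1 (OmegaOf (OpenFam X)) (OmegaOf (OpenFam X)) := by
  refine ⟨fun X hX => ⟨fun k => ?_, ?_, ?_⟩, fun X K hK hKX hKc => not_s1 hK hKX hKc⟩
  · have := isSigmaCompact_iff_sigmaCompactSpace.mp hX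
    exact Pool.Agent.Helper185.Pol.polar_sigmaCompact k
  · intro h
    by_contra hc
    obtain ⟨K, hK, hKX⟩ := hX
    have h1 : ∃ n, ¬ (K n).Countable := by
      by_contra h2
      push Not at h2
      apply hc
      rw [← hKX]
      exact countable_iUnion h2
    obtain ⟨n, hn⟩ := h1
    exact not_s1 (hK n) (hKX ▸ subset_iUnion K n) hn h
  · intro h
    have := h.to_subtype
    exact s1_of_countable

end Pool.Agent.Results.MP_7b7e09_gt.SigmaCompactSets
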